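import Mathlib
import Pool.Agent.H73.SharpShadings.Defs
import Pool.Agent.H73.KMAX.Final
import Pool.Agent.H15.KMAX.MNR
import Pool.Agent.H13.K2S.KP2

/-!
# Kakeya in `ℝ³`: the sharp power of the density for shadings with boundedly many scales

The lines `c i + ℝ e i` of `ℝ³` have `δ`-separated unit directions, and `A i` is a set of points
of the line `i`. The scales are `1 = σ 0 ≥ ρ 1 ≥ σ 1 ≥ ρ 2 ≥ ⋯ ≥ σ K ≥ ρ (K + 1) = δ`. The sets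
`A i` are dense from `σ k` to `ρ (k + 1)`, and arbitrary from `ρ k` to `σ k`.
-/

set_option autoImplicit false

namespace Pool.Agent.H73.SharpShadings.Candidate

open MeasureTheory Pool.Agent.H73.SharpShadings

/-- If a set `X` contains a portion `μ` of each ball of radius `δ` about the points
`c i + t e i`, `t` in `A i`, then its volume is at least
`b μ κ ^ P δ ^ ε (∏ σ k / ρ k) ^ 3 (N δ ²)`. -/
theorem result (K : ℕ) (ε : ℝ) (hε : 0 < ε) :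
    ∃ b P : ℝ, 0 < b ∧ 0 ≤ P ∧ ∀ δ : ℝ, 0 < δ → δ < 1 → ∀ σ ρ : ℕ → ℝ, σ 0 = 1 →
      ρ (K + 1) = δ → (∀ k ≤ K, ρ (k + 1) ≤ σ k) → (∀ k < K, σ (k + 1) ≤ ρ (k + 1)) →
      ∀ κ : ℝ, 0 < κ → κ ≤ 1 → ∀ (N : ℕ) (c e : Fin N → EuclideanSpace ℝ (Fin 3))
        (A : Fin N → Set ℝ), (∀ i, ‖e i‖ = 1) → (∀ i j, i ≠ j → δ ≤ ‖e i - e j‖) →
      (∀ i, (A i).Nonempty ∧ ∀ k ≤ K, DenseBetween κ (σ k) (ρ (k + 1)) (A i)) →
      ∀ (μ : ℝ) (X : Set (EuclideanSpace ℝ (Fin 3))), 0 ≤ μ →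
      (∀ i, ∀ t ∈ A i,
        ENNReal.ofReal (μ * δ ^ 3) ≤ volume (X ∩ Metric.closedBall (c i + t • e i) δ)) →
      ENNReal.ofReal (b * μ * κ ^ P * δ ^ ε *
        (∏ k ∈ Finset.range K, σ (k + 1) / ρ (k + 1)) ^ 3 * (N * δ ^ 2)) ≤ volume X := by
  obtain ⟨b, P, hb, hP, h⟩ := Pool.KMT.shadings_of_mnr (m := 2)
    (Pool.KMX.mnr_thm Pool.K2S.kp_2 K) hε
  refine ⟨b, P, hb, hP, ?_⟩
  intro δ hδ hδ1 σ ρ hσ0 hρK hρσ hσρ κ hκ hκ1 N c e A he hsep hA μ X hμ hX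
  exact h δ hδ hδ1 σ ρ hσ0 hρK hρσ hσρ κ hκ hκ1 N c e A he hsep (fun i => (hA i).1)
    (fun i => (hA i).2) μ X hμ hX

end Pool.Agent.H73.SharpShadings.Candidate
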